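import Mathlib
import Pool.Agent.Q138.MRD.Core

set_option autoImplicit false

/-!
# Additive MRD codes do not always contain additive MRD codes of the next distance

For `q = 2`, `n = 4`, `d = 2` there is an additive (even linear) MRD code which contains no
additive MRD code with minimum distance `3`: the orthogonal space of the spread set of a proper
semifield of order 16.
-/

namespace Pool.Agent.Results.MP_e73581_co.NoMRDSubcode

/-- The code `C` has minimum distance `d`: the least rank of `A - B` for `A ≠ B` in `C` exists (so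
that `C` has at least two elements) and equals `d`. -/
def HasMinDist {F : Type} [Field F] {n : ℕ} (C : Set (Matrix (Fin n) (Fin n) F)) (d : ℕ) : Prop :=
  IsLeast {r : ℕ | ∃ A ∈ C, ∃ B ∈ C, A ≠ B ∧ (A - B).rank = r} d

/-- `C` is an additive MRD code with minimum distance `d`: it is an additive subgroup with minimum
distance `d` and with `q ^ (n (n - d + 1))` elements, where `q` is the order of the field. -/
def IsAdditiveMRD {F : Type} [Field F] {n : ℕ} (C : AddSubgroup (Matrix (Fin n) (Fin n) F))
    (d : ℕ) : Prop :=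
  HasMinDist (C : Set (Matrix (Fin n) (Fin n) F)) d ∧
    Nat.card C = Nat.card F ^ (n * (n - d + 1))

/-- **Theorem.** (1) There is an `𝔽₂`-linear MRD code of `4 × 4` matrices over `𝔽₂` with minimum
distance `2` which contains no additive MRD code with minimum distance `3`. (2) Hence the answer to
the question is negative: it is not true that for all finite fields and `1 ≤ d < n` every additive
MRD code with minimum distance `d` contains an additive MRD code with minimum distance `d + 1`. -/
theorem result :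
    (∃ C : Submodule (ZMod 2) (Matrix (Fin 4) (Fin 4) (ZMod 2)), IsAdditiveMRD C.toAddSubgroup 2 ∧
      ∀ C' : AddSubgroup (Matrix (Fin 4) (Fin 4) (ZMod 2)), C' ≤ C.toAddSubgroup →
        ¬ IsAdditiveMRD C' 3) ∧
    ¬ ∀ (F : Type) [Field F] [Finite F] (n d : ℕ), 1 ≤ d → d < n →
      ∀ C : AddSubgroup (Matrix (Fin n) (Fin n) F), IsAdditiveMRD C d →
        ∃ C' : AddSubgroup (Matrix (Fin n) (Fin n) F), C' ≤ C ∧ IsAdditiveMRD C' (d + 1) := by
  have hC : IsAdditiveMRD (Pool.Agent.Q138.MRD.CC).toAddSubgroup 2 := by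
    constructor
    · constructor
      · refine ⟨Pool.Agent.Q138.MRD.toM 18, ?_, 0, (Pool.Agent.Q138.MRD.CC).zero_mem, ?_, ?_⟩
        · show Pool.Agent.Q138.MRD.toM 18 ∈ Pool.Agent.Q138.MRD.CC
          rw [Pool.Agent.Q138.MRD.mem_CC]
          exact Pool.Agent.Q138.MRD.mem18
        · exact Pool.Agent.Q138.MRD.ne18
        · rw [sub_zero]
          exact Pool.Agent.Q138.MRD.rank18
      · rintro r ⟨A, hA, B, hB, hAB, rfl⟩
        exact Pool.Agent.Q138.MRD.CC_rank ((Pool.Agent.Q138.MRD.CC).sub_mem hA hB)
          (sub_ne_zero.2 hAB)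
    · show Nat.card Pool.Agent.Q138.MRD.CC = _
      rw [Pool.Agent.Q138.MRD.card_CC]
      simp
  have hno : ∀ C' : AddSubgroup (Matrix (Fin 4) (Fin 4) (ZMod 2)),
      C' ≤ (Pool.Agent.Q138.MRD.CC).toAddSubgroup → ¬ IsAdditiveMRD C' 3 := by
    rintro C' hle ⟨h1, h2⟩
    refine Pool.Agent.Q138.MRD.no_sub C' (fun A hA => hle hA) ?_ ?_
    · rw [h2]
      simp
    · intro A hA h0
      exact h1.2 ⟨A, hA, 0, C'.zero_mem, h0, by rw [sub_zero]⟩
  refine ⟨⟨Pool.Agent.Q138.MRD.CC, hC, hno⟩, fun H => ?_⟩
  obtain ⟨C', hle, hC'⟩ := H (ZMod 2) 4 2 (by norm_num) (by norm_num) _ hC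
  exact hno C' hle hC'

end Pool.Agent.Results.MP_e73581_co.NoMRDSubcode
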